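import Pool.Agent.H74HQ.Seven

set_option autoImplicit false

namespace Pool.Agent.H74HQ

open Pool.Agent.HofQ

variable {f : ℕ → ℕ}

structure Vals2 (f : ℕ → ℕ) : Prop where
  v25 : f 25 = 14
  v26 : f 26 = 14
  v27 : f 27 = 16
  v28 : f 28 = 16
  v29 : f 29 = 16
  v30 : f 30 = 16
  v31 : f 31 = 20

theorem vals2 (h : Sol f) : Vals2 f := by
  obtain ⟨v1, v2, v3, v4, v5, v6, v7, v8, v9, v10, v11, v12, v13, v14, v15, v16, v17, v18, v19,
    v20, v21, v22, v23, v24⟩ := vals h
  have v25 := h.eqn 25 (by norm_num)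
  norm_num [v7, v8, v9, v10, v11, v12, v13, v14, v15, v16, v17, v18, v19, v20, v21, v22, v23, v24] at v25
  have v26 := h.eqn 26 (by norm_num)
  norm_num [v7, v8, v9, v10, v11, v12, v13, v14, v15, v16, v17, v18, v19, v20, v21, v22, v23, v24, v25] at v26
  have v27 := h.eqn 27 (by norm_num)
  norm_num [v7, v8, v9, v10, v11, v12, v13, v14, v15, v16, v17, v18, v19, v20, v21, v22, v23, v24, v25, v26] at v27
  have v28 := h.eqn 28 (by norm_num)
  norm_num [v7, v8, v9, v10, v11, v12, v13, v14, v15, v16, v17, v18, v19, v20, v21, v22, v23, v24, v25, v26, v27] at v28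
  have v29 := h.eqn 29 (by norm_num)
  norm_num [v7, v8, v9, v10, v11, v12, v13, v14, v15, v16, v17, v18, v19, v20, v21, v22, v23, v24, v25, v26, v27, v28] at v29
  have v30 := h.eqn 30 (by norm_num)
  norm_num [v7, v8, v9, v10, v11, v12, v13, v14, v15, v16, v17, v18, v19, v20, v21, v22, v23, v24, v25, v26, v27, v28, v29] at v30
  have v31 := h.eqn 31 (by norm_num)
  norm_num [v7, v8, v9, v10, v11, v12, v13, v14, v15, v16, v17, v18, v19, v20, v21, v22, v23, v24, v25, v26, v27, v28, v29, v30] at v31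
  exact ⟨v25, v26, v27, v28, v29, v30, v31⟩

theorem le_ten' (v : Vals f) {x : ℕ} (h1 : 1 ≤ x) (h2 : x ≤ 16) : f x ≤ 10 := by
  obtain ⟨v1, v2, v3, v4, v5, v6, v7, v8, v9, v10, v11, v12, v13, v14, v15, v16, v17, v18, v19,
    v20, v21, v22, v23, v24⟩ := v
  interval_cases x <;> omega

theorem le_eight' (v : Vals f) {x : ℕ} (h1 : 1 ≤ x) (h2 : x ≤ 13) : f x ≤ 8 := by
  obtain ⟨v1, v2, v3, v4, v5, v6, v7, v8, v9, v10, v11, v12, v13, v14, v15, v16, v17, v18, v19,
    v20, v21, v22, v23, v24⟩ := v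
  interval_cases x <;> omega

theorem le_nine' (v : Vals f) {x : ℕ} (h1 : 1 ≤ x) (h2 : x ≤ 16) (h3 : x ≠ 15) : f x ≤ 9 := by
  obtain ⟨v1, v2, v3, v4, v5, v6, v7, v8, v9, v10, v11, v12, v13, v14, v15, v16, v17, v18, v19,
    v20, v21, v22, v23, v24⟩ := v
  interval_cases x <;> omega

/-- the first value at most eight after the place 14 is not at most seven -/
theorem no7 (h : Sol f) {m : ℕ} (hm : 30 ≤ m) (h7 : f (m + 2) ≤ 7)
    (hmin : ∀ j, 15 ≤ j → j < m + 2 → 9 ≤ f j) : False := by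
  obtain ⟨v1, v2, v3, v4, v5, v6, v7, v8, v9, v10, v11, v12, v13, v14, v15, v16, v17, v18, v19,
    v20, v21, v22, v23, v24⟩ := vals h
  have hmin8 : ∀ j, 12 ≤ j → j < m + 2 → 8 ≤ f j := by
    intro j hj hj'
    by_cases h15 : 15 ≤ j
    · have := hmin j h15 hj'
      omega
    · have : j = 12 ∨ j = 13 ∨ j = 14 := by omega
      rcases this with r | r | r <;> rw [r] <;> omega
  obtain ⟨c0, c1, c2, c3, c4, c5, c6, c7, c8, c9, c10⟩ := key_min h (by omega) h7 hmin8
  rw [show m + 2 - 2 = m by omega] at c1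
  rw [show m + 2 - 1 = m + 1 by omega] at c3 c4 c7
  rw [show m + 2 - 3 = m - 1 by omega] at c5 c6 c7
  rw [show m + 2 - 5 = m - 3 by omega] at c8 c9
  rw [show m + 2 - 4 = m - 2 by omega] at c10
  have hle := h.le
  have hpos := h.pos
  obtain ⟨A, hA⟩ : ∃ A, A = m + 2 - f (m + 1) := ⟨_, rfl⟩
  obtain ⟨w, hw⟩ : ∃ w, w = f (m - 1) := ⟨_, rfl⟩
  obtain ⟨b, hb⟩ : ∃ b, b = f (m - 2) := ⟨_, rfl⟩
  obtain ⟨Q, hQ⟩ : ∃ Q, Q = m - 1 - f (m - 3) := ⟨_, rfl⟩
  obtain ⟨d, hd⟩ : ∃ d, d = f (m - 4) := ⟨_, rfl⟩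
  obtain ⟨e, he⟩ : ∃ e, e = f (m - 5) := ⟨_, rfl⟩
  have hA9 : 9 ≤ A := by omega
  have hA11 : A ≤ 11 := by omega
  have hwA : w ≤ A := by omega
  have hQ2 : 2 ≤ Q := by omega
  have hQ5 : Q ≤ 5 := by omega
  have b9 : 9 ≤ b := by rw [hb]; exact hmin _ (by omega) (by omega)
  have e9 : 9 ≤ e := by rw [he]; exact hmin _ (by omega) (by omega)
  -- equations
  have E0 := h.eqn m (by omega)
  rw [← hw, ← hb] at E0
  have E1 := h.eqn (m + 1) (by omega)
  rw [show m + 1 - 1 = m by omega, show m + 1 - 2 = m - 1 by omega, c1, ← hw,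
    show m + 1 - m = 1 by omega, v1] at E1
  have Em1 := h.eqn (m - 1) (by omega)
  rw [show m - 1 - 1 = m - 2 by omega, show m - 1 - 2 = m - 3 by omega, ← hb, ← hQ] at Em1
  have Em2 := h.eqn (m - 2) (by omega)
  have td := h.lt1 (m - 3) (by omega)
  have td2 := h.lt2 (m - 2) (by omega)
  have te := h.lt2 (m - 3) (by omega)
  rw [show m - 3 - 1 = m - 4 by omega] at td
  rw [show m - 2 - 2 = m - 4 by omega] at td2
  rw [show m - 3 - 2 = m - 5 by omega] at te
  rw [show m - 2 - 1 = m - 3 by omega, show m - 2 - 2 = m - 4 by omega, ← hb, ← hd,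
    show m - 2 - f (m - 3) = Q - 1 by omega] at Em2
  have Em3 := h.eqn (m - 3) (by omega)
  rw [show m - 3 - 1 = m - 4 by omega, show m - 3 - 2 = m - 5 by omega, ← hd, ← he] at Em3
  have E3 := h.eqn (m + 3) (by omega)
  rw [show m + 3 - 1 = m + 2 by omega, show m + 3 - 2 = m + 1 by omega, c2,
    show m + 3 - 7 = m - 4 by omega, ← hd, show m + 3 - f (m + 1) = A + 1 by omega] at E3
  have E4 := h.eqn (m + 4) (by omega)
  have t4 := h.lt1 (m + 4) (by omega)
  rw [show m + 4 - 1 = m + 3 by omega] at t4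
  rw [show m + 4 - 1 = m + 3 by omega, show m + 4 - 2 = m + 2 by omega, c2,
    show m + 4 - 7 = m - 3 by omega] at E4
  have l4 := hle (m + 4) (by omega)
  have hJ : f (m + 4 - f (m + 3)) ≤ 5 + Q := by omega
  have lw := hle (m - w) (by omega)
  have hg : w ≤ f (m - b) := by omega
  -- Q ≤ 3
  obtain ⟨P, hP⟩ : ∃ P, P = m - 1 - b := ⟨_, rfl⟩
  rw [← hP] at Em1
  rw [show m - b = P + 1 by omega] at E0 hg
  have hQ3 : f Q ≤ 2 := by
    by_cases hP15 : 15 ≤ P
    · have := hmin P hP15 (by omega)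
      omega
    · have hP14 : P = 14 := by omega
      rw [hP14] at hg Em1
      norm_num at hg
      omega
  have hQ3' : Q ≤ 3 := by
    by_contra hc
    have : Q = 4 ∨ Q = 5 := by omega
    rcases this with r | r <;> rw [r] at hQ3 <;> omega
  have hfQ1 : f (Q - 1) = 1 := by
    have : Q = 2 ∨ Q = 3 := by omega
    rcases this with r | r <;> rw [r]
    · exact v1
    · exact v2
  obtain ⟨r, hr⟩ : ∃ r, r = m - 2 - d := ⟨_, rfl⟩
  rw [hfQ1, ← hr] at Em2
  have hA' : A = 9 ∨ A = 10 ∨ A = 11 := by omega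
  have key : A = 11 ∧ f (r - 2) ≤ 5 + Q ∧ 3 ≤ r := by
    have s1 : A ≤ 10 → f (m + 3) = d + 6 → False := by
      intro h10 h3
      rw [show m + 4 - f (m + 3) = r by omega] at hJ
      have hb9 : b = 9 := by omega
      have hP10 : P = m - 10 := by omega
      have := hmin P (by omega) (by omega)
      have hQ3e : Q = 3 := by omega
      rw [hQ3e, v3] at Em1
      omega
    rcases hA' with a | a | a
    · rw [a] at E3
      norm_num [v10] at E3
      exact (s1 (by omega) E3).elim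
    · rw [a] at E3
      norm_num [v11] at E3
      exact (s1 (by omega) E3).elim
    · rw [a] at E3
      norm_num [v12] at E3
      rw [show m + 4 - f (m + 3) = r - 2 by omega] at hJ
      exact ⟨a, hJ, by omega⟩
  obtain ⟨hA1, hJ1, hr3⟩ := key
  have hr16 : r ≤ 16 := by
    by_contra hc
    have := hmin (r - 2) (by omega) (by omega)
    omega
  have hfr : f r ≤ 10 := le_ten' (vals h) (by omega) hr16
  have hPge := hmin P (by omega) (by omega)
  rw [hA1] at hA
  have hQc : Q = 2 ∨ Q = 3 := by omega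
  rcases hQc with q | q
  · rw [q, v2] at Em1
    rw [q] at hJ1
    have hr13 : r ≤ 13 := by
      by_contra hc
      by_cases h15 : 15 ≤ r - 2
      · have := hmin (r - 2) h15 (by omega)
        omega
      · have : r - 2 = 12 ∨ r - 2 = 13 ∨ r - 2 = 14 := by omega
        rcases this with k | k | k <;> rw [k] at hJ1 <;> omega
    have hfr8 : f r ≤ 8 := le_eight' (vals h) (by omega) hr13
    have hb9 : b = 9 := by omega
    have hP10 : P = m - 10 := by omega
    rw [hP10] at Em1 E0 hPge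
    rw [show m - 10 + 1 = m - 9 by omega] at E0
    have hwc : w = 10 ∨ w = 11 := by omega
    rcases hwc with k | k
    · rw [k] at E0 E1
      rw [show m + 1 - 10 = m - 9 by omega] at E1
      omega
    · rw [k] at E1
      rw [show m + 1 - 11 = m - 10 by omega] at E1
      omega
  · rw [q, v3] at Em1
    have hw11 : w = 11 := by omega
    rw [hw11] at E0 E1
    rw [show m + 1 - 11 = m - 10 by omega] at E1
    have hbc : b = 9 ∨ b = 10 ∨ b = 11 := by omega
    rcases hbc with k | k | k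
    · rw [show P = m - 10 by omega] at Em1
      omega
    · rw [show P = m - 11 by omega] at Em1 E0
      rw [show m - 11 + 1 = m - 10 by omega] at E0
      omega
    · have hfr10 : f r = 10 := by omega
      have hr15 : r = 15 := by
        by_contra hc
        have := le_nine' (vals h) (by omega) hr16 hc
        omega
      rw [show m - 3 - d = 14 by omega, v14] at Em3
      have le3 := hle (m - 3 - e) (by omega)
      have he9 : e = 9 := by omega
      rw [he9, show m - 3 - 9 = m - 12 by omega] at Em3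
      rw [show P = m - 12 by omega] at Em1
      omega

/-- the first late value 8 is preceded by a late value 9 or 10 -/
theorem no9 (h : Sol f) {n : ℕ} (hn : 31 ≤ n) (h8 : f n = 8)
    (hmin : ∀ j, 18 ≤ j → j < n → 11 ≤ f j) : False := by
  obtain ⟨v1, v2, v3, v4, v5, v6, v7, v8, v9, v10, v11, v12, v13, v14, v15, v16, v17, v18, v19,
    v20, v21, v22, v23, v24⟩ := vals h
  have hle := h.le
  have hpos := h.pos
  have late : ∀ j, 1 ≤ j → j < n → f j ≤ 7 → j ≤ 11 := by
    intro j hj1 hj hf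
    by_contra hc
    by_cases h18 : 18 ≤ j
    · have := hmin j h18 hj
      omega
    · have : j = 12 ∨ j = 13 ∨ j = 14 ∨ j = 15 ∨ j = 16 ∨ j = 17 := by omega
      rcases this with r | r | r | r | r | r <;> rw [r] at hf <;> omega
  have late10 : ∀ j, 1 ≤ j → j < n → f j ≤ 10 → j ≤ 17 := by
    intro j hj1 hj hf
    by_contra hc
    have := hmin j (by omega) hj
    omega
  obtain ⟨A, hA⟩ : ∃ A, A = n - f (n - 1) := ⟨_, rfl⟩
  obtain ⟨B, hB⟩ : ∃ B, B = n - f (n - 2) := ⟨_, rfl⟩
  have l1 := hle (n - 1) (by omega)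
  have l2 := hle (n - 2) (by omega)
  have p1 := hpos (n - 1) (by omega)
  have p2 := hpos (n - 2) (by omega)
  have e0 := h.eqn n (by omega)
  rw [← hA, ← hB] at e0
  have pA := hpos A (by omega)
  have pB := hpos B (by omega)
  have hA2 := late A (by omega) (by omega) (by omega)
  have hB2 := late B (by omega) (by omega) (by omega)
  have u11 := hmin (n - 3) (by omega) (by omega)
  have l3 := hle (n - 3) (by omega)
  have e1 := h.eqn (n - 1) (by omega)
  rw [show n - 1 - 1 = n - 2 by omega, show n - 1 - 2 = n - 3 by omega,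
    show n - 1 - f (n - 2) = B - 1 by omega] at e1
  have lw := hle (n - 1 - f (n - 3)) (by omega)
  have h12 : 12 ≤ A + f (B - 1) := by omega
  have hAB : A = 11 ∧ B = 3 := by
    have hA1 : 1 ≤ A := by omega
    have hB1 : 2 ≤ B := by omega
    have hs : f A + f B = 8 := by omega
    clear e1 e0 hpos hle l1 l2 p1 p2 pA pB l3 lw hA hB late late10 hmin u11
    interval_cases B <;> simp only [Nat.reduceSub] at h12 ⊢ <;> interval_cases A <;>
      first
        | omega
        | simp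
  obtain ⟨rfl, rfl⟩ := hAB
  rw [show 3 - 1 = 2 from rfl, v2] at e1 h12
  have hu : f (n - 3) = 11 := by omega
  rw [hu, show n - 1 - 11 = n - 12 by omega] at e1
  have e3 := h.eqn (n - 3) (by omega)
  have t1 := h.lt1 (n - 3) (by omega)
  have t2 := h.lt2 (n - 3) (by omega)
  rw [show n - 3 - 1 = n - 4 by omega] at t1
  rw [show n - 3 - 2 = n - 5 by omega] at t2
  obtain ⟨P, hP⟩ : ∃ P, P = n - 3 - f (n - 4) := ⟨_, rfl⟩
  rw [show n - 3 - 1 = n - 4 by omega, show n - 3 - 2 = n - 5 by omega, ← hP] at e3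
  have q1 := hpos (n - 3 - f (n - 5)) (by omega)
  have hP17 := late10 P (by omega) (by omega) (by omega)
  have e2 := h.eqn (n - 2) (by omega)
  rw [show n - 2 - 1 = n - 3 by omega, show n - 2 - 2 = n - 4 by omega, hu,
    show n - 2 - 11 = n - 13 by omega, show n - 2 - f (n - 4) = P + 1 by omega] at e2
  have hg : f (P + 1) ≤ 11 := by
    have hP1 : P ≤ 17 := hP17
    clear e1 e0 hpos hle l1 l2 p1 p2 pA pB l3 lw hA hB late late10 hmin u11 e3 e2 hP t1 t2 q1
    interval_cases P <;> simp only [Nat.reduceAdd] <;> omega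
  have e11 := h.eqn (n - 11) (by omega)
  have t11 := h.lt2 (n - 11) (by omega)
  rw [show n - 11 - 2 = n - 13 by omega] at t11
  rw [show n - 11 - 1 = n - 12 by omega, show n - 11 - 2 = n - 13 by omega,
    show n - 11 - f (n - 12) = 1 by omega, v1] at e11
  have m11 := hmin (n - 11) (by omega) (by omega)
  have hx : n - 11 - f (n - 13) = 1 ∨ n - 11 - f (n - 13) = 2 ∨ n - 11 - f (n - 13) = 3 := by omega
  rcases hx with r | r | r <;> rw [r] at e11 <;> omega

/-- if a value at most seven occurs after the place 11, or a value eight after the place 14, then a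
value 8 occurs after the place 30, and before it a value 9 or 10 after the place 30 -/
theorem late (h : Sol f) {n : ℕ} (hn : 12 ≤ n) (h7 : f n ≤ 7) :
    ∃ Z Y, 32 ≤ Y ∧ Y < Z ∧ Z < n ∧ f Z = 8 ∧ (f Y = 9 ∨ f Y = 10) := by
  classical
  obtain ⟨v1, v2, v3, v4, v5, v6, v7, v8, v9, v10, v11, v12, v13, v14, v15, v16, v17, v18, v19,
    v20, v21, v22, v23, v24⟩ := vals h
  obtain ⟨v25, v26, v27, v28, v29, v30, v31⟩ := vals2 h
  have hn15 : 15 ≤ n := by
    by_contra hc
    interval_cases n <;> omega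
  have hex : ∃ n, 15 ≤ n ∧ f n ≤ 8 := ⟨n, hn15, by omega⟩
  obtain ⟨Z, hZ⟩ : ∃ Z, Z = Nat.find hex := ⟨_, rfl⟩
  obtain ⟨a1, a2⟩ := Nat.find_spec hex
  have hmn : Nat.find hex ≤ n := Nat.find_min' hex ⟨hn15, by omega⟩
  have hmin : ∀ j, 15 ≤ j → j < Nat.find hex → 9 ≤ f j := by
    intro j hj hj'
    by_contra hc
    exact Nat.find_min hex hj' ⟨hj, by omega⟩
  rw [← hZ] at a1 a2 hmn hmin
  have hZ32 : 32 ≤ Z := by
    by_contra hc
    clear hmin
    interval_cases Z <;> omega
  have h8 : f Z = 8 := by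
    by_contra hc
    obtain ⟨m, hm⟩ : ∃ m, Z = m + 2 := ⟨Z - 2, by omega⟩
    rw [hm] at a2 hmin hc
    exact no7 h (by omega) (by omega) hmin
  have hZn : Z ≠ n := by
    rintro rfl
    omega
  by_contra hno
  refine no9 h (by omega) h8 fun j hj hj' => ?_
  by_contra hlt
  have h9 := hmin j (by omega) hj'
  by_cases hj32 : 32 ≤ j
  · exact hno ⟨Z, j, hj32, hj', by omega, h8, by omega⟩
  · clear hmin
    interval_cases j <;> omega

end Pool.Agent.H74HQ
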