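import Pool.Agent.HofQ.Basic

set_option autoImplicit false

namespace Pool.Agent.H74HQ

open Pool.Agent.HofQ

variable {f : ℕ → ℕ}

structure Vals (f : ℕ → ℕ) : Prop where
  v1 : f 1 = 1
  v2 : f 2 = 1
  v3 : f 3 = 2
  v4 : f 4 = 3
  v5 : f 5 = 3
  v6 : f 6 = 4
  v7 : f 7 = 5
  v8 : f 8 = 5
  v9 : f 9 = 6
  v10 : f 10 = 6
  v11 : f 11 = 6
  v12 : f 12 = 8
  v13 : f 13 = 8
  v14 : f 14 = 8
  v15 : f 15 = 10
  v16 : f 16 = 9
  v17 : f 17 = 10
  v18 : f 18 = 11
  v19 : f 19 = 11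
  v20 : f 20 = 12
  v21 : f 21 = 12
  v22 : f 22 = 12
  v23 : f 23 = 12
  v24 : f 24 = 16

theorem vals (h : Sol f) : Vals f := by
  have v1 := h.h1
  have v2 := h.h2
  have v3 := h.eqn 3 (by norm_num)
  norm_num [v1, v2] at v3
  have v4 := h.eqn 4 (by norm_num)
  norm_num [v1, v2, v3] at v4
  have v5 := h.eqn 5 (by norm_num)
  norm_num [v1, v2, v3, v4] at v5
  have v6 := h.eqn 6 (by norm_num)
  norm_num [v1, v2, v3, v4, v5] at v6
  have v7 := h.eqn 7 (by norm_num)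
  norm_num [v1, v2, v3, v4, v5, v6] at v7
  have v8 := h.eqn 8 (by norm_num)
  norm_num [v1, v2, v3, v4, v5, v6, v7] at v8
  have v9 := h.eqn 9 (by norm_num)
  norm_num [v1, v2, v3, v4, v5, v6, v7, v8] at v9
  have v10 := h.eqn 10 (by norm_num)
  norm_num [v1, v2, v3, v4, v5, v6, v7, v8, v9] at v10
  have v11 := h.eqn 11 (by norm_num)
  norm_num [v1, v2, v3, v4, v5, v6, v7, v8, v9, v10] at v11
  have v12 := h.eqn 12 (by norm_num)
  norm_num [v1, v2, v3, v4, v5, v6, v7, v8, v9, v10, v11] at v12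
  have v13 := h.eqn 13 (by norm_num)
  norm_num [v3, v4, v5, v6, v7, v8, v9, v10, v11, v12] at v13
  have v14 := h.eqn 14 (by norm_num)
  norm_num [v3, v4, v5, v6, v7, v8, v9, v10, v11, v12, v13] at v14
  have v15 := h.eqn 15 (by norm_num)
  norm_num [v3, v4, v5, v6, v7, v8, v9, v10, v11, v12, v13, v14] at v15
  have v16 := h.eqn 16 (by norm_num)
  norm_num [v3, v4, v5, v6, v7, v8, v9, v10, v11, v12, v13, v14, v15] at v16
  have v17 := h.eqn 17 (by norm_num)
  norm_num [v3, v4, v5, v6, v7, v8, v9, v10, v11, v12, v13, v14, v15, v16] at v17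
  have v18 := h.eqn 18 (by norm_num)
  norm_num [v3, v4, v5, v6, v7, v8, v9, v10, v11, v12, v13, v14, v15, v16, v17] at v18
  have v19 := h.eqn 19 (by norm_num)
  norm_num [v3, v4, v5, v6, v7, v8, v9, v10, v11, v12, v13, v14, v15, v16, v17, v18] at v19
  have v20 := h.eqn 20 (by norm_num)
  norm_num [v6, v7, v8, v9, v10, v11, v12, v13, v14, v15, v16, v17, v18, v19] at v20
  have v21 := h.eqn 21 (by norm_num)
  norm_num [v6, v7, v8, v9, v10, v11, v12, v13, v14, v15, v16, v17, v18, v19, v20] at v21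
  have v22 := h.eqn 22 (by norm_num)
  norm_num [v6, v7, v8, v9, v10, v11, v12, v13, v14, v15, v16, v17, v18, v19, v20, v21] at v22
  have v23 := h.eqn 23 (by norm_num)
  norm_num [v6, v7, v8, v9, v10, v11, v12, v13, v14, v15, v16, v17, v18, v19, v20, v21, v22] at v23
  have v24 := h.eqn 24 (by norm_num)
  norm_num [v6, v7, v8, v9, v10, v11, v12, v13, v14, v15, v16, v17, v18, v19, v20, v21, v22, v23] at v24
  exact ⟨v1, v2, v3, v4, v5, v6, v7, v8, v9, v10, v11, v12, v13, v14, v15, v16, v17, v18, v19,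
    v20, v21, v22, v23, v24⟩

theorem pairs (v : Vals f) {A B : ℕ} (hA1 : 1 ≤ A) (hA2 : A ≤ 11) (hB1 : 2 ≤ B) (hB2 : B ≤ 11)
    (h1 : f A + f B ≤ 7) (h2 : 9 ≤ A + f (B - 1)) :
    (B = 2 ∧ 9 ≤ A ∧ f A = 6) ∨ (B ≤ 5 ∧ A + f (B - 1) = 9) := by
  obtain ⟨v1, v2, v3, v4, v5, v6, v7, v8, v9, v10, v11, v12, v13, v14, v15, v16, v17, v18, v19,
    v20, v21, v22, v23, v24⟩ := v
  interval_cases B <;> simp only [Nat.reduceSub] at h2 ⊢ <;> interval_cases A <;>
    first
      | omega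
      | (left; refine ⟨trivial, ?_, ?_⟩ <;> omega)

theorem le_eight (v : Vals f) {a : ℕ} (ha : a ≤ 13) : f (a + 1) ≤ 8 := by
  obtain ⟨v1, v2, v3, v4, v5, v6, v7, v8, v9, v10, v11, v12, v13, v14, v15, v16, v17, v18, v19,
    v20, v21, v22, v23, v24⟩ := v
  interval_cases a <;> simp only [Nat.reduceAdd] <;> omega

theorem key_min (h : Sol f) {n : ℕ} (hn : 12 ≤ n) (h7 : f n ≤ 7)
    (hmin : ∀ j, 12 ≤ j → j < n → 8 ≤ f j) :
    25 ≤ n ∧ f (n - 2) = n - 2 ∧ f n = 7 ∧ n ≤ f (n - 1) + 11 ∧ f (n - 1) + 9 ≤ n ∧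
      9 ≤ f (n - 3) ∧ f (n - 3) ≤ 11 ∧ f (n - 3) + f (n - 1) ≤ n ∧
      n ≤ f (n - 5) + 8 ∧ f (n - 5) + 5 ≤ n ∧ f (n - 4) + 17 ≤ n := by
  have hv := vals h
  obtain ⟨v1, v2, v3, v4, v5, v6, v7, v8, v9, v10, v11, v12, v13, v14, v15, v16, v17, v18, v19,
    v20, v21, v22, v23, v24⟩ := vals h
  have hn25 : 25 ≤ n := by
    by_contra hc
    interval_cases n <;> omega
  have hpos := h.pos
  have hle := h.le
  obtain ⟨A, hA⟩ : ∃ A, A = n - f (n - 1) := ⟨_, rfl⟩
  obtain ⟨B, hB⟩ : ∃ B, B = n - f (n - 2) := ⟨_, rfl⟩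
  have l1 := hle (n - 1) (by omega)
  have l2 := hle (n - 2) (by omega)
  have l3 := hle (n - 3) (by omega)
  have l4 := hle (n - 4) (by omega)
  have l5 := hle (n - 5) (by omega)
  have p1 := hpos (n - 1) (by omega)
  have p2 := hpos (n - 2) (by omega)
  have e0 := h.eqn n (by omega)
  rw [← hA, ← hB] at e0
  have hA1 : 1 ≤ A := by omega
  have hB1 : 2 ≤ B := by omega
  have pA := hpos A hA1
  have pB := hpos B (by omega)
  have hA2 : A ≤ 11 := by
    by_contra hc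
    have := hmin A (by omega) (by omega)
    omega
  have hB2 : B ≤ 11 := by
    by_contra hc
    have := hmin B (by omega) (by omega)
    omega
  have w8 := hmin (n - 3) (by omega) (by omega)
  have e1 := h.eqn (n - 1) (by omega)
  rw [show n - 1 - 1 = n - 2 by omega, show n - 1 - 2 = n - 3 by omega,
    show n - 1 - f (n - 2) = B - 1 by omega] at e1
  have lw := hle (n - 1 - f (n - 3)) (by omega)
  have hFB : f (B - 1) ≤ B - 1 := hle _ (by omega)
  obtain ⟨FB, hFBe⟩ : ∃ FB, FB = f (B - 1) := ⟨_, rfl⟩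
  have hw : f (n - 3) + 1 ≤ A + f (B - 1) := by omega
  -- the pairs
  have hpairs : (B = 2 ∧ 9 ≤ A ∧ f A = 6) ∨ (B ≤ 5 ∧ A + f (B - 1) = 9) :=
    pairs hv hA1 hA2 hB1 hB2 (by omega) (by omega)
  -- the case `w = 8`
  have hw9 : f (n - 3) ≠ 8 := by
    intro hw8
    obtain ⟨P, hP⟩ : ∃ P, P = n - 3 - f (n - 4) := ⟨_, rfl⟩
    have e3 := h.eqn (n - 3) (by omega)
    rw [show n - 3 - 1 = n - 4 by omega, show n - 3 - 2 = n - 5 by omega, ← hP] at e3
    have t1 := h.lt1 (n - 3) (by omega)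
    have t2 := h.lt2 (n - 3) (by omega)
    rw [show n - 3 - 1 = n - 4 by omega] at t1
    rw [show n - 3 - 2 = n - 5 by omega] at t2
    have q1 := hpos (n - 3 - f (n - 5)) (by omega)
    have hP1 : 1 ≤ P := by omega
    have hP2 : P ≤ 11 := by
      by_contra hc
      have := hmin P (by omega) (by omega)
      omega
    have e2 := h.eqn (n - 2) (by omega)
    rw [show n - 2 - 1 = n - 3 by omega, show n - 2 - 2 = n - 4 by omega, hw8,
      show n - 2 - 8 = n - 10 by omega, show n - 2 - f (n - 4) = P + 1 by omega] at e2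
    rw [hw8, show n - 1 - 8 = n - 9 by omega] at e1
    have e8 := h.eqn (n - 8) (by omega)
    rw [show n - 8 - 1 = n - 9 by omega, show n - 8 - 2 = n - 10 by omega] at e8
    have l9 := hle (n - 9) (by omega)
    have l10 := hle (n - 10) (by omega)
    rw [show n - 8 - f (n - 9) = A + f (B - 1) - 8 by omega,
      show n - 8 - f (n - 10) = B + f (P + 1) - 8 by omega] at e8
    have m8 := hmin (n - 8) (by omega) (by omega)
    have c1 : 1 ≤ A + f (B - 1) - 8 ∧ A + f (B - 1) - 8 ≤ 4 := by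
      rcases hpairs with ⟨hb, -, -⟩ | ⟨-, h3⟩
      · rw [hb, show 2 - 1 = 1 from rfl, v1]
        rw [hb, show 2 - 1 = 1 from rfl, v1] at hw
        omega
      · omega
    have hB5 : B ≤ 5 := by omega
    have hP8 : f (P + 1) ≤ 8 := le_eight hv (by omega)
    have c2 : 1 ≤ B + f (P + 1) - 8 ∧ B + f (P + 1) - 8 ≤ 5 := by omega
    obtain ⟨x, hx⟩ : ∃ x, x = A + f (B - 1) - 8 := ⟨_, rfl⟩
    obtain ⟨y, hy⟩ : ∃ y, y = B + f (P + 1) - 8 := ⟨_, rfl⟩
    rw [← hx, ← hy] at e8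
    have fx : f x ≤ 3 := by
      have : x = 1 ∨ x = 2 ∨ x = 3 ∨ x = 4 := by omega
      rcases this with r | r | r | r <;> rw [r] <;> omega
    have fy : f y ≤ 3 := by
      have : y = 1 ∨ y = 2 ∨ y = 3 ∨ y = 4 ∨ y = 5 := by omega
      rcases this with r | r | r | r | r <;> rw [r] <;> omega
    omega
  rcases hpairs with ⟨hb, hA9, hfA⟩ | ⟨-, h8⟩
  swap
  · omega
  rw [hb, show 2 - 1 = 1 from rfl, v1] at e1 hw
  rw [hb, v2] at e0
  have hm : f (n - 2) = n - 2 := by omega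
  -- the additions
  obtain ⟨a, ha⟩ : ∃ a, a = n - 3 - f (n - 4) := ⟨_, rfl⟩
  obtain ⟨b, hb⟩ : ∃ b, b = n - 3 - f (n - 5) := ⟨_, rfl⟩
  have e3 := h.eqn (n - 3) (by omega)
  rw [show n - 3 - 1 = n - 4 by omega, show n - 3 - 2 = n - 5 by omega, ← ha, ← hb] at e3
  have t1 := h.lt1 (n - 3) (by omega)
  have t2 := h.lt2 (n - 3) (by omega)
  rw [show n - 3 - 1 = n - 4 by omega] at t1
  rw [show n - 3 - 2 = n - 5 by omega] at t2
  have e2 := h.eqn (n - 2) (by omega)
  rw [show n - 2 - 1 = n - 3 by omega, show n - 2 - 2 = n - 4 by omega,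
    show n - 2 - f (n - 4) = a + 1 by omega] at e2
  have lv := hle (n - 2 - f (n - 3)) (by omega)
  have hfa1 : 9 ≤ f (a + 1) := by omega
  have ha14 : 14 ≤ a := by
    by_contra hc
    have hc' : a ≤ 13 := by omega
    have := le_eight hv hc'
    omega
  have p4 := hpos (n - 4) (by omega)
  have hfa := hmin a (by omega) (by omega)
  have hfb : f b ≤ 3 := by omega
  have hb5 : b ≤ 5 := by
    by_contra hc
    by_cases hb12 : 12 ≤ b
    · have p5 := hpos (n - 5) (by omega)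
      have := hmin b hb12 (by omega)
      omega
    · have : b = 6 ∨ b = 7 ∨ b = 8 ∨ b = 9 ∨ b = 10 ∨ b = 11 := by omega
      rcases this with r | r | r | r | r | r <;> rw [r] at hfb <;> omega
  refine ⟨hn25, hm, by omega, by omega, by omega, by omega, by omega, by omega, by omega,
    by omega, by omega⟩

/-- if a value is at most seven after the place 11, then the sequence has a fixed point `m`, and
around it the values are as in the quasi-periodic solutions of Golomb -/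
theorem seven (h : Sol f) {n : ℕ} (hn : 12 ≤ n) (h7 : f n ≤ 7) :
    ∃ m, 23 ≤ m ∧ m + 2 ≤ n ∧ f m = m ∧ f (m + 2) = 7 ∧
      m ≤ f (m + 1) + 9 ∧ f (m + 1) + 7 ≤ m ∧ 9 ≤ f (m - 1) ∧ f (m - 1) ≤ 11 ∧
      f (m - 1) + f (m + 1) ≤ m + 2 ∧ m ≤ f (m - 3) + 6 ∧ f (m - 2) + 15 ≤ m ∧
      ∀ j, 12 ≤ j → j < m + 2 → 8 ≤ f j := by
  classical
  have hex : ∃ n, 12 ≤ n ∧ f n ≤ 7 := ⟨n, hn, h7⟩
  obtain ⟨a1, a2⟩ := Nat.find_spec hex
  have hmn : Nat.find hex ≤ n := Nat.find_min' hex ⟨hn, h7⟩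
  have hmin : ∀ j, 12 ≤ j → j < Nat.find hex → 8 ≤ f j := by
    intro j hj hj'
    by_contra hc
    exact Nat.find_min hex hj' ⟨hj, by omega⟩
  obtain ⟨c0, c1, c2, c3, c4, c5, c6, c7, c8, c9, c10⟩ := key_min h a1 a2 hmin
  obtain ⟨m, hm⟩ : ∃ m, Nat.find hex = m + 2 := ⟨Nat.find hex - 2, by omega⟩
  rw [hm] at c0 c1 c2 c3 c4 c5 c6 c7 c8 c9 c10 hmn hmin
  rw [show m + 2 - 2 = m by omega] at c1
  rw [show m + 2 - 1 = m + 1 by omega] at c3 c4 c7
  rw [show m + 2 - 3 = m - 1 by omega] at c5 c6 c7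
  rw [show m + 2 - 5 = m - 3 by omega] at c8
  rw [show m + 2 - 4 = m - 2 by omega] at c10
  exact ⟨m, by omega, hmn, c1, c2, by omega, by omega, c5, c6, by omega, by omega, by omega, hmin⟩

/-- values at most five occur only at the first eight places -/
theorem six (h : Sol f) {n : ℕ} (hn : 9 ≤ n) : 6 ≤ f n := by
  induction n using Nat.strong_induction_on with
  | _ n ih =>
  obtain ⟨v1, v2, v3, v4, v5, v6, v7, v8, v9, v10, v11, v12, v13, v14, v15, v16, v17, v18, v19,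
    v20, v21, v22, v23, v24⟩ := vals h
  by_contra hlt
  have hn25 : 25 ≤ n := by
    by_contra hc
    interval_cases n <;> omega
  have hpos := h.pos
  have hle := h.le
  obtain ⟨A, hA⟩ : ∃ A, A = n - f (n - 1) := ⟨_, rfl⟩
  obtain ⟨B, hB⟩ : ∃ B, B = n - f (n - 2) := ⟨_, rfl⟩
  have l1 := hle (n - 1) (by omega)
  have l2 := hle (n - 2) (by omega)
  have p1 := hpos (n - 1) (by omega)
  have p2 := hpos (n - 2) (by omega)
  have e0 := h.eqn n (by omega)
  rw [← hA, ← hB] at e0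
  have pA := hpos A (by omega)
  have pB := hpos B (by omega)
  have hA2 : A ≤ 8 := by
    by_contra hc
    have := ih A (by omega) (by omega)
    omega
  have hB2 : B ≤ 8 := by
    by_contra hc
    have := ih B (by omega) (by omega)
    omega
  have w6 := ih (n - 3) (by omega) (by omega)
  have e1 := h.eqn (n - 1) (by omega)
  rw [show n - 1 - 1 = n - 2 by omega, show n - 1 - 2 = n - 3 by omega,
    show n - 1 - f (n - 2) = B - 1 by omega] at e1
  have t3 := hle (n - 3) (by omega)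
  have lw := hle (n - 1 - f (n - 3)) (by omega)
  have h9 : 7 ≤ A + f (B - 1) := by omega
  have hAB : A = 6 ∧ B = 2 := by
    have hA1 : 1 ≤ A := by omega
    have hB1 : 2 ≤ B := by omega
    have hs : f A + f B ≤ 5 := by omega
    clear e1 e0 ih hpos hle l1 l2 p1 p2 pA pB w6 t3 lw hlt hA hB
    interval_cases B <;> simp only [Nat.reduceSub] at h9 ⊢ <;> interval_cases A <;>
      first
        | omega
        | simp
  obtain ⟨rfl, rfl⟩ := hAB
  rw [show 2 - 1 = 1 from rfl, v1] at e1 h9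
  have hw : f (n - 3) = 6 := by omega
  obtain ⟨P, hP⟩ : ∃ P, P = n - 3 - f (n - 4) := ⟨_, rfl⟩
  have e3 := h.eqn (n - 3) (by omega)
  rw [show n - 3 - 1 = n - 4 by omega, show n - 3 - 2 = n - 5 by omega, ← hP] at e3
  have t1 := h.lt1 (n - 3) (by omega)
  have t2 := h.lt2 (n - 3) (by omega)
  rw [show n - 3 - 1 = n - 4 by omega] at t1
  rw [show n - 3 - 2 = n - 5 by omega] at t2
  have q1 := hpos (n - 3 - f (n - 5)) (by omega)
  have hP2 : P ≤ 8 := by
    by_contra hc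
    have := ih P (by omega) (by omega)
    omega
  have e2 := h.eqn (n - 2) (by omega)
  rw [show n - 2 - 1 = n - 3 by omega, show n - 2 - 2 = n - 4 by omega, hw,
    show n - 2 - 6 = n - 8 by omega, show n - 2 - f (n - 4) = P + 1 by omega] at e2
  have l8 := hle (n - 8) (by omega)
  have hFP : 6 ≤ f (P + 1) := by omega
  have hP8 : f (P + 1) = 6 := by
    have hP1 : 1 ≤ P := by omega
    clear e1 e0 ih hpos hle l1 l2 p1 p2 pA pB w6 t3 lw hlt hA hB e3 e2 hP t1 t2 q1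
    interval_cases P <;> simp only [Nat.reduceAdd] at hFP ⊢ <;> omega
  rw [hw, show n - 1 - 6 = n - 7 by omega] at e1
  have e6 := h.eqn (n - 6) (by omega)
  rw [show n - 6 - 1 = n - 7 by omega, show n - 6 - 2 = n - 8 by omega,
    show n - 6 - f (n - 7) = 1 by omega, show n - 6 - f (n - 8) = 2 by omega, v1, v2] at e6
  have := ih (n - 6) (by omega) (by omega)
  omega

end Pool.Agent.H74HQ
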